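import Pool.Agent.U153.Xe7

/-!
Directed polymers with a general i.i.d. environment with exponential moments, positive temperature:
the size of the set of the drifts at which the polymer wanders or its free energy fluctuates
anomalously. The definitions (`polymer`, `logZ`, `dev`, `wander`, `Concentrated`, `chiUp`, `chi`)
are in `Pool/Agent/N662/SE/Exp.lean` and `Pool/Agent/N662/SE/Up.lean`, the walk (`Step`, `pos`) is
in `Pool/Agent/TH967/DP/Defs.lean`.

Proof: the limiting free energy `φ` is convex on `ℝ^d`; outside a set of `(d-1+σ)`-dimensional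
Hausdorff measure zero it has an expansion with an error `O(|s|^(1+σ))` from above in all coordinate
directions (Vitali covering for the second derivative measures), and the tilt `n^(-(1-b)/σ)` gives
the confinement at the scale `n^b`.
-/

set_option autoImplicit false

open MeasureTheory ProbabilityTheory Filter Topology

namespace Pool.Agent.Results.MP_7d29a1_pr.ExceptionalDrifts

open TH967.DP (Step pos)
open Pool.Agent.N662.SE

/-- Let `ω(i,y)` be i.i.d. with all exponential moments.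
(1) Let `d ≥ 1`, `β` real and `0 < σ ≤ 1`. For all drifts `h ∈ ℝ^d` outside a set of
`(d - 1 + σ)`-dimensional Hausdorff measure zero there is a slope `v` with
`ν ≤ (1 + σ χ')/(1 + σ)`, `χ' ≤ 1/2`; and if the free energy is concentrated on the scale `n^ξ` near
`h` (always true for `ξ = 1/2`), then for `b > (1 + σ ξ)/(1 + σ)` and `c < b - (1 - b)/σ`, almost
surely for all large `n` the polymer measure of `{max_{i ≤ n} ‖S_i - i v‖ ≤ n^b}` is at least
`1 - exp(-n^c)`.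
(2) For `d ≥ 1`, `β` real and `3/4 < b < 1` the drifts `h ∈ ℝ^d` at which `ν > b` (around the lines
of all slopes) form a set of Hausdorff dimension at most `d - 1 + 2 (1 - b)/(2 b - 1)`.
Let moreover `d = 1`, let `ω(i,y)` be non-constant and `β > 0`. Then:
(3) for `0 < σ ≤ 1` and all drifts `h ∈ ℝ` outside a set of `σ`-dimensional Hausdorff measure zero,
`χ ≥ σ (1 - χ')/(2 (1 + σ))`, `χ' ≤ 1/2`, and `Var log Z_n ≥ n^(2t)` for large `n`, for every
`t < σ/(4 (1 + σ))`;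
(4) for `0 < t < 1/8` the drifts at which `Var log Z_n ≥ n^(2t)` fails for infinitely many `n` form
a set of Hausdorff dimension at most `4 t/(1 - 4 t)`;
(5) the drifts at which not both `ν < 1` (around some line) and `χ > 0` form a set of Hausdorff
dimension zero. -/
theorem result :
    (∀ d : ℕ, 1 ≤ d → ∀ (Ω : Type) [MeasurableSpace Ω] (P : Measure Ω) [IsProbabilityMeasure P]
      (ω : ℕ → (Fin d → ℤ) → Ω → ℝ), (∀ i y, Measurable (ω i y)) →
      iIndepFun (fun s : ℕ × (Fin d → ℤ) => ω s.1 s.2) P →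
      (∀ i y, IdentDistrib (ω i y) (ω 1 0) P P) →
      (∀ b : ℝ, Integrable (fun x => Real.exp (b * ω 1 0 x)) P) → ∀ β : ℝ,
      (∀ σ : ℝ, 0 < σ → σ ≤ 1 → ∃ N : Set (Fin d → ℝ), μH[(d : ℝ) - 1 + σ] N = 0 ∧
        ∀ h : Fin d → ℝ, h ∉ N →
        Concentrated P ω β h (1 / 2) ∧ chiUp P ω β h ≤ 1 / 2 ∧ ∃ v : Fin d → ℝ,
        wander P ω β h v ≤ (1 + σ * chiUp P ω β h) / (1 + σ) ∧
        ∀ ξ : ℝ, 0 < ξ → ξ < 1 → Concentrated P ω β h ξ → ∀ b c : ℝ,
          (1 + σ * ξ) / (1 + σ) < b → b ≤ 1 → c < b - (1 - b) / σ →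
          ∀ᵐ x ∂P, ∀ᶠ n : ℕ in atTop,
            1 - Real.exp (-(n : ℝ) ^ c) ≤ polymer β h (fun i y => ω i y x) n
              {w | ∀ i : ℕ, i ≤ n → dev v w i ≤ (n : ℝ) ^ b}) ∧
      ∀ b : ℝ, 3 / 4 < b → b < 1 →
        dimH {h : Fin d → ℝ | ∀ v : Fin d → ℝ, b < wander P ω β h v} ≤
          ENNReal.ofReal ((d : ℝ) - 1 + 2 * (1 - b) / (2 * b - 1))) ∧
    ∀ (Ω : Type) [MeasurableSpace Ω] (P : Measure Ω) [IsProbabilityMeasure P]
      (ω : ℕ → (Fin 1 → ℤ) → Ω → ℝ), (∀ i y, Measurable (ω i y)) →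
      iIndepFun (fun s : ℕ × (Fin 1 → ℤ) => ω s.1 s.2) P →
      (∀ i y, IdentDistrib (ω i y) (ω 1 0) P P) →
      (∀ b : ℝ, Integrable (fun x => Real.exp (b * ω 1 0 x)) P) →
      (¬ ∃ c : ℝ, ∀ᵐ x ∂P, ω 1 0 x = c) → ∀ β : ℝ, 0 < β →
      (∀ σ : ℝ, 0 < σ → σ ≤ 1 → ∃ N : Set ℝ, μH[σ] N = 0 ∧ ∀ h : ℝ, h ∉ N →
        chiUp P ω β (fun _ => h) ≤ 1 / 2 ∧
        σ * (1 - chiUp P ω β (fun _ => h)) / (2 * (1 + σ)) ≤ chi P ω β (fun _ => h) ∧
        ∀ t : ℝ, t < σ / (4 * (1 + σ)) → ∀ᶠ n : ℕ in atTop, (n : ℝ) ^ (2 * t) ≤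
          variance (fun x => logZ β (fun _ => h) (fun i y => ω i y x) n) P) ∧
      (∀ t : ℝ, 0 < t → t < 1 / 8 →
        dimH {h : ℝ | ¬ ∀ᶠ n : ℕ in atTop, (n : ℝ) ^ (2 * t) ≤
          variance (fun x => logZ β (fun _ => h) (fun i y => ω i y x) n) P} ≤
          ENNReal.ofReal (4 * t / (1 - 4 * t))) ∧
      dimH {h : ℝ | ¬ ((∃ v : ℝ, wander P ω β (fun _ => h) (fun _ => v) < 1) ∧
        0 < chi P ω β (fun _ => h))} = 0 := by
  -- the bound of the wandering exponent outside the exceptional set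
  have W : ∀ σ χ : ℝ, 0 < σ → χ ≤ 1 / 2 → (1 + σ * χ) / (1 + σ) ≤ (2 + σ) / (2 + 2 * σ) := by
    intro σ χ hσ hχ
    rw [div_le_div_iff₀ (by linarith) (by linarith)]
    have h6 : σ * χ ≤ σ * (1 / 2) := mul_le_mul_of_nonneg_left hχ hσ.le
    nlinarith
  refine ⟨fun d hd Ω _ P _ ω h1 h2 h3 h4 β => ?_, ?_⟩
  · have H := fun σ hσ => Pool.Agent.U153.xe_main hd P ω ⟨h1, h2, h3⟩ h4 β σ hσ
    refine ⟨fun σ hσ _ => H σ hσ, fun b hb hb1 => ?_⟩
    have hb0 : 0 < 2 * b - 1 := by linarith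
    refine Pool.Agent.U153.xe_dim hd (div_nonneg (by linarith) hb0.le)
      ((div_lt_one hb0).2 (by linarith)) fun σ hσ1 hσ2 => ?_
    have hσ0 : 0 < σ := lt_of_le_of_lt (div_nonneg (by linarith) hb0.le) hσ1
    obtain ⟨N, hN, hN2⟩ := H σ hσ0
    refine measure_mono_null (fun h hh => ?_) hN
    by_contra hcon
    obtain ⟨-, hχ, v, hv, -⟩ := hN2 h hcon
    have h6 := (hh v).trans_le (hv.trans (W σ _ hσ0 hχ))
    rw [div_lt_iff₀ hb0] at hσ1
    rw [lt_div_iff₀ (by linarith)] at h6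
    nlinarith
  intro Ω _ P _ ω h1 h2 h3 h4 h5 β hβ
  have H := fun σ hσ => Pool.Agent.U153.xd_one P ω ⟨h1, h2, h3⟩ h4 h5 β σ hβ hσ
  refine ⟨fun σ hσ _ => ?_, ?_, ?_⟩
  · obtain ⟨N, hN, hN2⟩ := H σ hσ
    exact ⟨N, hN, fun h hh => ⟨(hN2 h hh).1, (hN2 h hh).2.2.1, (hN2 h hh).2.2.2⟩⟩
  · intro t ht0 ht1
    have h40 : 0 < 1 - 4 * t := by linarith
    refine Pool.Agent.U153.xd_dim (div_nonneg (by linarith) h40.le)
      ((div_lt_one h40).2 (by linarith)) fun σ hσ1 hσ2 => ?_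
    have hσ0 : 0 < σ := lt_of_le_of_lt (div_nonneg (by linarith) h40.le) hσ1
    obtain ⟨N, hN, hN2⟩ := H σ hσ0
    refine measure_mono_null (fun h hh => ?_) hN
    by_contra hcon
    obtain ⟨-, -, -, hv⟩ := hN2 h hcon
    refine hh (hv t ?_)
    rw [div_lt_iff₀ h40] at hσ1
    rw [lt_div_iff₀ (by linarith)]
    nlinarith
  · refine le_antisymm ?_ zero_le
    have h6 := Pool.Agent.U153.xd_dim (S := {h : ℝ | ¬ ((∃ v : ℝ,
      wander P ω β (fun _ => h) (fun _ => v) < 1) ∧ 0 < chi P ω β (fun _ => h))})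
      (s := 0) le_rfl one_pos fun σ hσ0 hσ2 => ?_
    · rwa [ENNReal.ofReal_zero] at h6
    obtain ⟨N, hN, hN2⟩ := H σ hσ0
    refine measure_mono_null (fun h hh => ?_) hN
    by_contra hcon
    obtain ⟨hχ, ⟨v, hv⟩, hc, -⟩ := hN2 h hcon
    refine hh ⟨⟨v, ?_⟩, ?_⟩
    · refine (hv.trans (W σ _ hσ0 hχ)).trans_lt ?_
      rw [div_lt_one (by linarith)]
      linarith
    · refine lt_of_lt_of_le ?_ hc
      apply div_pos _ (by linarith)
      exact mul_pos hσ0 (by linarith)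

end Pool.Agent.Results.MP_7d29a1_pr.ExceptionalDrifts
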