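import Pool.Agent.U874.RG.Main

/-!
Directed polymers in dimension `1+1`, simple random walk with drift `h`, i.i.d. environment with all
exponential moments, positive temperature. `logZ β h ω n` (from `Pool/Agent/N662/SE/Exp.lean`) is
the logarithm of the average over the `2^n` walks `w` of `exp (β ∑_{i ≤ n} ω(i, w_i) + h w_n)`.

The growth exponent of the moments (the replica exponent): with `φ(h) = lim E log Z_n / n` and
`Λ(h,θ) = lim (1/n) log E Z_n^θ` one expects `Λ(h,θ) - θ φ(h) ≈ θ^(1/χ)`, `χ = 1/3` (Kardar's replica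
computation), as `θ → 0+`. It is shown that `θ^(5+δ) ≤ Λ(h,θ) - θ φ(h) ≤ C θ^2` for Lebesgue almost
every drift `h`, and, uniformly in `h ∈ ℝ`, for some `h'` within distance `θ^a` of `h`, with the
exponent `5 + a + δ`.
-/

set_option autoImplicit false

open MeasureTheory ProbabilityTheory Filter Topology

namespace Pool.Agent.Results.MP_7d29a1_pr.ReplicaExponent

open Pool.Agent.N662.SE (logZ)

/-- Let `d = 1`, let `ω(i,y)` be i.i.d., not almost surely constant, with all exponential moments,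
let `β > 0`. There are functions `φ(h)`, `Λ(h,θ)` and a constant `C > 0` such that
(1) `E log Z_n / n → φ(h)` for every drift `h`;
(2) `n Λ(h,θ) - log(2n+1) ≤ log E Z_n^θ ≤ n Λ(h,θ)` for all `h`, `0 < θ ≤ 1/4`, `n`;
(3) `0 ≤ Λ(h,θ) - θ φ(h) ≤ C θ^2`;
(4) for Lebesgue almost every `h` and every `p > 5`, `Λ(h,θ) - θ φ(h) ≥ θ^p` for all small `θ > 0`;
(5) for all `a ≥ 0` and `p > 5 + a`, if `θ > 0` is small enough, then every `h ∈ ℝ` has some `h'` with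
`|h' - h| ≤ θ^a` and `Λ(h',θ) - θ φ(h') ≥ θ^p`. -/
theorem result {Ω : Type} [MeasurableSpace Ω] (P : Measure Ω)
    [IsProbabilityMeasure P] (ω : ℕ → (Fin 1 → ℤ) → Ω → ℝ) (hmeas : ∀ i y, Measurable (ω i y))
    (hindep : iIndepFun (fun s : ℕ × (Fin 1 → ℤ) => ω s.1 s.2) P)
    (hident : ∀ i y, IdentDistrib (ω i y) (ω 1 0) P P)
    (hexp : ∀ b : ℝ, Integrable (fun x => Real.exp (b * ω 1 0 x)) P)
    (hnc : ¬ ∃ c : ℝ, ∀ᵐ x ∂P, ω 1 0 x = c) (β : ℝ) (hβ : 0 < β) :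
    ∃ (φ : ℝ → ℝ) (Λ : ℝ → ℝ → ℝ) (C : ℝ), 0 < C ∧
      (∀ h : ℝ, Tendsto (fun n : ℕ =>
        (∫ x, logZ β (fun _ => h) (fun i y => ω i y x) n ∂P) / n) atTop (𝓝 (φ h))) ∧
      (∀ h θ : ℝ, 0 < θ → θ ≤ 1 / 4 → ∀ n : ℕ,
        n * Λ h θ - Real.log (2 * n + 1) ≤
          Real.log (∫ x, Real.exp (θ * logZ β (fun _ => h) (fun i y => ω i y x) n) ∂P) ∧
        Real.log (∫ x, Real.exp (θ * logZ β (fun _ => h) (fun i y => ω i y x) n) ∂P) ≤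
          n * Λ h θ) ∧
      (∀ h θ : ℝ, 0 < θ → θ ≤ 1 / 4 →
        0 ≤ Λ h θ - θ * φ h ∧ Λ h θ - θ * φ h ≤ C * θ ^ 2) ∧
      (∀ᵐ h : ℝ, ∀ p : ℝ, 5 < p → ∀ᶠ θ : ℝ in 𝓝[>] 0, θ ^ p ≤ Λ h θ - θ * φ h) ∧
      (∀ a p : ℝ, 0 ≤ a → 5 + a < p → ∀ᶠ θ : ℝ in 𝓝[>] 0, ∀ h : ℝ, ∃ h' : ℝ,
        |h' - h| ≤ θ ^ a ∧ θ ^ p ≤ Λ h' θ - θ * φ h') :=
  U874.RG.main ⟨hmeas, hindep, hident⟩ hexp hnc β hβ

end Pool.Agent.Results.MP_7d29a1_pr.ReplicaExponent
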