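import Pool.Agent.N662.SE.All
import Pool.Agent.N523.SE.MGF

/-!
Directed polymers on `ℤ^d`, all `d ≥ 1`, simple random walk, i.i.d. environment with exponential
moments, positive temperature: the inequality `χ ≥ 2 ν - 1` (one half of the scaling relation) and
the bound `ν ≤ 3/4`, for Lebesgue almost every drift, without any assumption on the curvature of the
limiting free energy. The definitions (`polymer`, `dev`, `wander`, `Concentrated`, `chiUp`) are in
`Pool/Agent/N662/SE/Exp.lean` and `Pool/Agent/N662/SE/Up.lean`, the walk and the energy are in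
`Pool/Agent/TH967/DP/Defs.lean`.

The proof is contained in the starting library (`Pool.Agent.N662.SE.upper`): by Alexandrov's theorem
the convex limiting free energy `φ` has a second order expansion at almost every drift `h`; together
with the rate of convergence of the free energy and the concentration at scale `n^ξ` it bounds
`log Z_n(h + k) - log Z_n(h) - n ⟨v, k⟩` by `C n |k|² + n^(ξ + o(1))`, `v = ∇φ(h)`.
-/

set_option autoImplicit false

open MeasureTheory ProbabilityTheory Filter Topology

namespace Pool.Agent.Results.MP_7d29a1_pr.ScalingInequality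

open Pool.Agent.N662.SE

/-- Let `d ≥ 1`, let `ω(i,y)` be i.i.d. with all exponential moments and let `β` be real. For
Lebesgue almost every drift `h ∈ ℝ^d` there is a slope `v ∈ ℝ^d` such that:
(1) `2 ν - 1 ≤ χ' ≤ 1/2`, in particular `ν ≤ 3/4`, where `ν` is the wandering exponent of the polymer
with drift `h` around the line of slope `v` and `χ'` is the upper fluctuation exponent;
(2) whenever the free energy is concentrated on the scale `n^ξ` near `h` (this always holds for
`ξ = 1/2`), then for all `b > (1+ξ)/2` and `c < 2b - 1`, almost surely for all large `n` the polymer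
measure of `{max_{i ≤ n} ‖S_i - i v‖ ≤ n^b}` is at least `1 - exp(-n^c)`. -/
theorem result {d : ℕ} (hd : 1 ≤ d) {Ω : Type} [MeasurableSpace Ω] (P : Measure Ω)
    [IsProbabilityMeasure P] (ω : ℕ → (Fin d → ℤ) → Ω → ℝ) (hmeas : ∀ i y, Measurable (ω i y))
    (hindep : iIndepFun (fun s : ℕ × (Fin d → ℤ) => ω s.1 s.2) P)
    (hident : ∀ i y, IdentDistrib (ω i y) (ω 1 0) P P)
    (hexp : ∀ b : ℝ, Integrable (fun x => Real.exp (b * ω 1 0 x)) P) (β : ℝ) :
    ∀ᵐ h : Fin d → ℝ, ∃ v : Fin d → ℝ,
      (2 * wander P ω β h v - 1 ≤ chiUp P ω β h ∧ chiUp P ω β h ≤ 1 / 2 ∧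
        wander P ω β h v ≤ 3 / 4) ∧
      Concentrated P ω β h (1 / 2) ∧
      ∀ ξ : ℝ, 0 < ξ → ξ < 1 → Concentrated P ω β h ξ → ∀ b c : ℝ, (1 + ξ) / 2 < b → b ≤ 1 →
        c < 2 * b - 1 → ∀ᵐ x ∂P, ∀ᶠ n : ℕ in atTop,
          1 - Real.exp (-(n : ℝ) ^ c) ≤ polymer β h (fun i y => ω i y x) n
            {w | ∀ i : ℕ, i ≤ n → dev v w i ≤ (n : ℝ) ^ b} := by
  filter_upwards [upper Pool.Agent.N523.SE.MGF.main hd P ω ⟨hmeas, hindep, hident⟩ hexp β]
    with h hh
  obtain ⟨v, h1, h2, h3, h4⟩ := hh
  exact ⟨v, ⟨h3, h4, by linarith⟩, h2, h1⟩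

end Pool.Agent.Results.MP_7d29a1_pr.ScalingInequality
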