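import Pool.Agent.U874.RG.Main

/-!
Directed polymers in dimension `1+1`, simple random walk with drift `h`, i.i.d. environment with all
exponential moments, positive temperature. `logZ β h ω n` (from `Pool/Agent/N662/SE/Exp.lean`) is
the logarithm of the average over the `2^n` walks `w` of `exp (β ∑_{i ≤ n} ω(i, w_i) + h w_n)`.

The upper tail of the free energy: one expects `P(log Z_n ≥ n (φ(h) + ε)) ≈ exp(-c ε^(3/2) n)` for
small `ε`, and `log Z_n - n φ(h)` of order `n^(1/3)`. It is shown that for Lebesgue almost every drift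
the probability is between `exp(-ε^(5/4-δ) n)` and `exp(-c ε^2 n)`, and that `log Z_n` exceeds
`n φ(h)` by `n^(1/5-δ)` with polynomially small probability, for infinitely many `n`.
-/

set_option autoImplicit false

open MeasureTheory ProbabilityTheory Filter Topology

namespace Pool.Agent.Results.MP_7d29a1_pr.UpperTailExponent

open Pool.Agent.N662.SE (logZ)

/-- Let `d = 1`, let `ω(i,y)` be i.i.d., not almost surely constant, with all exponential moments,
let `β > 0`. There are a function `φ(h)` and a constant `C > 0` such that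
(1) `E log Z_n / n → φ(h)` for every drift `h`;
(2) `P(log Z_n ≥ n φ(h) + n ε) ≤ exp(-ε^2 n / C)` for all `h`, `0 < ε ≤ 1/2`, `n`;
(3) for Lebesgue almost every `h`, every `κ < 5/4` and all small `ε > 0`:
`P(log Z_n ≥ n φ(h) + n ε) ≥ exp(-ε^κ n)` for all large `n`;
(4) for Lebesgue almost every `h` and every `χ < 1/5` there is `K` such that
`P(log Z_n ≥ n φ(h) + n^χ) ≥ n^(-K)` for infinitely many `n`. -/
theorem result {Ω : Type} [MeasurableSpace Ω] (P : Measure Ω)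
    [IsProbabilityMeasure P] (ω : ℕ → (Fin 1 → ℤ) → Ω → ℝ) (hmeas : ∀ i y, Measurable (ω i y))
    (hindep : iIndepFun (fun s : ℕ × (Fin 1 → ℤ) => ω s.1 s.2) P)
    (hident : ∀ i y, IdentDistrib (ω i y) (ω 1 0) P P)
    (hexp : ∀ b : ℝ, Integrable (fun x => Real.exp (b * ω 1 0 x)) P)
    (hnc : ¬ ∃ c : ℝ, ∀ᵐ x ∂P, ω 1 0 x = c) (β : ℝ) (hβ : 0 < β) :
    ∃ (φ : ℝ → ℝ) (C : ℝ), 0 < C ∧
      (∀ h : ℝ, Tendsto (fun n : ℕ =>
        (∫ x, logZ β (fun _ => h) (fun i y => ω i y x) n ∂P) / n) atTop (𝓝 (φ h))) ∧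
      (∀ h ε : ℝ, 0 < ε → ε ≤ 1 / 2 → ∀ n : ℕ,
        P.real {x | n * φ h + n * ε ≤ logZ β (fun _ => h) (fun i y => ω i y x) n} ≤
          Real.exp (-(ε ^ 2 / C * n))) ∧
      (∀ᵐ h : ℝ, ∀ κ : ℝ, κ < 5 / 4 → ∀ᶠ ε : ℝ in 𝓝[>] 0, ∀ᶠ n : ℕ in atTop,
        Real.exp (-(ε ^ κ * n)) ≤
          P.real {x | n * φ h + n * ε ≤ logZ β (fun _ => h) (fun i y => ω i y x) n}) ∧
      (∀ᵐ h : ℝ, ∀ χ : ℝ, χ < 1 / 5 → ∃ K : ℝ, ∃ᶠ n : ℕ in atTop, (n : ℝ) ^ (-K) ≤
        P.real {x | n * φ h + (n : ℝ) ^ χ ≤ logZ β (fun _ => h) (fun i y => ω i y x) n}) :=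
  U874.RG.upper_tail ⟨hmeas, hindep, hident⟩ hexp hnc β hβ

end Pool.Agent.Results.MP_7d29a1_pr.UpperTailExponent
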